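import Pool.Agent.Helper92.LimPer.Defs
import Pool.Agent.Helper92.LimPer.Spectral
import Pool.Agent.Helper92.LimPer.Gordon
import Pool.Agent.Helper92.LimPer.Construct

/-!
# Coupling-constant dependence of the spectral type for limit-periodic operators

There is a limit-periodic `V : ℤ → ℝ` such that `H_V` has pure point spectral part, while
`H_{λV}` has no pure point part for all sufficiently small `λ > 0`.
-/

open scoped InnerProductSpace
open MeasureTheory Filter Topology
open Pool.Agent.Helper92.LimPer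

namespace Pool.Agent.Results.MP_c5cda2_mp.CouplingDependentType

theorem limitPeriodic_V : LimitPeriodic Con.V := by
  refine ⟨Con.W, fun k => ⟨Con.q k, Con.q_pos k, Con.W_periodic k⟩, ?_⟩
  rw [Metric.tendstoUniformly_iff]
  intro ε hε
  have h1 : Tendsto (fun k : ℕ => (2 : ℝ) ^ 11 / 2 ^ k) atTop (𝓝 0) := by
    have := (tendsto_pow_atTop_nhds_zero_of_lt_one (r := (1 / 2 : ℝ)) (by norm_num)
      (by norm_num)).const_mul ((2 : ℝ) ^ 11)
    rw [mul_zero] at this
    refine this.congr fun k => ?_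
    rw [one_div_pow]; ring
  filter_upwards [h1.eventually (gt_mem_nhds hε)] with k hk n
  rw [Real.dist_eq]
  exact (Con.V_sub_W k n).trans_lt hk

/-- the eigenfunction at coupling one -/
noncomputable def eigenfunction : L2Z :=
  ⟨fun n => (Con.u n.natAbs : ℂ), (memlp_iff _).2 (by
    have h := Con.u_sq_summable
    refine Summable.of_nat_of_neg ?_ ?_
    · refine h.congr fun n => ?_
      simp
    · refine h.congr fun n => ?_
      simp)⟩

theorem eigenfunction_apply (n : ℤ) : eigenfunction n = (Con.u n.natAbs : ℂ) := rfl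

theorem pp_mem : SpectralLabel.pp ∈ spectralType (couplingOp Con.V limitPeriodic_V 1) := by
  have h0 : eigenfunction ≠ 0 := by
    intro h
    have h1 : eigenfunction 0 = 0 := by rw [h]; rfl
    rw [eigenfunction_apply, Int.natAbs_zero, Con.u_zero] at h1
    simp at h1
  refine pp_of_eigen (schrodinger_isSelfAdjoint _ _) h0 (E := 0) ?_
  rw [Complex.ofReal_zero, zero_smul]
  ext n
  show schrodinger (fun n => 1 * Con.V n) _ eigenfunction n = 0
  rw [schrodinger_apply, eigenfunction_apply, eigenfunction_apply, eigenfunction_apply]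
  have h := Con.u_abs_eq n
  have h2 : ((Con.u (n + 1).natAbs + Con.u (n - 1).natAbs + Con.V n * Con.u n.natAbs : ℝ) : ℂ) = 0 := by
    rw [h]; simp
  push_cast at h2 ⊢
  rw [one_mul]
  linear_combination h2

theorem small_tendsto (c : ℝ) (hc : 0 ≤ c) (hc1 : c ≤ 1) :
    Tendsto (fun k => (2 * (5 : ℝ) ^ (Con.q k - 1) + 1) *
      |(c * Con.V 0) - (c * Con.V (Con.q k))|) atTop (𝓝 0) := by
  have hgeo : Tendsto (fun k => 24 * ((5 : ℝ) / 8) ^ (Con.q k)) atTop (𝓝 0) := by
    have hq : Tendsto Con.q atTop atTop :=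
      tendsto_atTop_mono (fun k => (Nat.le_succ k).trans (Con.le_q k)) tendsto_id
    have := ((tendsto_pow_atTop_nhds_zero_of_lt_one (r := (5 / 8 : ℝ)) (by norm_num)
      (by norm_num)).comp hq).const_mul (24 : ℝ)
    simpa using this
  refine squeeze_zero' (Eventually.of_forall fun k => by positivity) ?_ hgeo
  filter_upwards [eventually_ge_atTop 1] with k hk
  obtain ⟨j, rfl⟩ : ∃ j, k = j + 1 := ⟨k - 1, by omega⟩
  have hB := (Con.B_main j).2
  have hV := Con.V_zero_sub (j + 1)
  have h1 : |(c * Con.V 0) - (c * Con.V (Con.q (j + 1)))| ≤ Con.B (j + 1) * Con.L (j + 1) := by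
    rw [← mul_sub, abs_mul, abs_of_nonneg hc]
    calc c * |Con.V 0 - Con.V (Con.q (j + 1))| ≤ 1 * |Con.V 0 - Con.V (Con.q (j + 1))| :=
          mul_le_mul_of_nonneg_right hc1 (abs_nonneg _)
      _ ≤ _ := by rw [one_mul]; exact hV
  set N := Con.q (j + 1) with hN
  have hjN : j + 2 ≤ N := Con.le_q (j + 1)
  have h2 : Con.B (j + 1) ≤ (1 / 16 : ℝ) ^ N := by
    refine hB.trans ?_
    calc (1 / 2 : ℝ) ^ (4 * N + 64 * Con.q j) ≤ (1 / 2 : ℝ) ^ (4 * N) :=
          pow_le_pow_of_le_one (by norm_num) (by norm_num) (by omega)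
      _ = (1 / 16 : ℝ) ^ N := by rw [pow_mul]; norm_num
  have h3 : Con.L (j + 1) ≤ 8 * 2 ^ N := by
    unfold Con.L
    calc (2 : ℝ) ^ (j + 1 + 3) ≤ 2 ^ (N + 3) := pow_le_pow_right₀ (by norm_num) (by omega)
      _ = 8 * 2 ^ N := by ring
  have h4 : 2 * (5 : ℝ) ^ (N - 1) + 1 ≤ 3 * 5 ^ N := by
    have h5 : (5 : ℝ) ^ (N - 1) ≤ 5 ^ N := pow_le_pow_right₀ (by norm_num) (by omega)
    have h6 : (1 : ℝ) ≤ 5 ^ N := one_le_pow₀ (by norm_num)
    linarith
  have h7 : Con.B (j + 1) * Con.L (j + 1) ≤ (1 / 16 : ℝ) ^ N * (8 * 2 ^ N) :=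
    mul_le_mul h2 h3 (by have := Con.L_ge (j + 1); linarith) (by positivity)
  calc (2 * (5 : ℝ) ^ (N - 1) + 1) * |(c * Con.V 0) - (c * Con.V N)|
      ≤ (3 * 5 ^ N) * ((1 / 16 : ℝ) ^ N * (8 * 2 ^ N)) :=
        mul_le_mul h4 (h1.trans h7) (abs_nonneg _) (by positivity)
    _ = 24 * (5 * (1 / 16) * 2 : ℝ) ^ N := by rw [mul_pow, mul_pow]; ring
    _ = 24 * ((5 : ℝ) / 8) ^ N := by norm_num

theorem pp_not_mem (lam : ℝ) (h0 : 0 < lam) (h1 : lam ≤ 1 / 2 ^ 11) :
    SpectralLabel.pp ∉ spectralType (couplingOp Con.V limitPeriodic_V lam) := by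
  intro hpp
  obtain ⟨E, φ, hφ, hE'⟩ := exists_eigen_of_pp (schrodinger_isSelfAdjoint _ _) hpp
  have hE : couplingOp Con.V limitPeriodic_V lam φ = (E : ℂ) • φ := hE'
  have hlam1 : lam ≤ 1 := h1.trans (by norm_num)
  have hVb : ∀ n, |lam * Con.V n| ≤ 1 := by
    intro n
    rw [abs_mul, abs_of_pos h0]
    calc lam * |Con.V n| ≤ (1 / 2 ^ 11) * 2 ^ 11 :=
          mul_le_mul h1 (Con.V_bound n) (abs_nonneg _) (by positivity)
      _ = 1 := by norm_num
  -- bound for the eigenvalue
  have hEb : |E| ≤ 3 := by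
    have h2 : ‖couplingOp Con.V limitPeriodic_V lam φ‖ ≤ (2 + 1) * ‖φ‖ :=
      norm_schrodinger_apply_le _ _ hVb φ
    rw [hE, norm_smul, Complex.norm_real, Real.norm_eq_abs] at h2
    have h3 : 0 < ‖φ‖ := norm_pos_iff.2 hφ
    have h4 := le_of_mul_le_mul_right h2 h3
    linarith
  have hrec : ∀ n, φ (n + 1) + φ (n - 1) = ((E - lam * Con.V n : ℝ) : ℂ) * φ n := by
    intro n
    have h2 : (couplingOp Con.V limitPeriodic_V lam φ) n = ((E : ℂ) • φ) n := by rw [hE]
    have h3 : (couplingOp Con.V limitPeriodic_V lam φ) n =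
        φ (n - 1) + φ (n + 1) + ((lam * Con.V n : ℝ) : ℂ) * φ n := rfl
    have h4 : ((E : ℂ) • φ) n = (E : ℂ) * φ n := rfl
    rw [h3, h4] at h2
    push_cast at h2 ⊢
    linear_combination h2
  have hq : Tendsto Con.q atTop atTop :=
    tendsto_atTop_mono (fun k => (Nat.le_succ k).trans (Con.le_q k)) tendsto_id
  have hsum : Summable fun n : ℤ => ‖φ n‖ ^ 2 := (memlp_iff _).1 (lp.memℓp φ)
  have hco : Tendsto (fun n : ℤ => ‖φ n‖) cofinite (𝓝 0) := by
    have h2 := hsum.tendsto_cofinite_zero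
    have h3 := (Real.continuous_sqrt.tendsto 0).comp h2
    rw [Real.sqrt_zero] at h3
    refine h3.congr fun n => ?_
    simp [Real.sqrt_sq (norm_nonneg _)]
  rw [Int.cofinite_eq] at hco
  have hzero := gordon (fun n => E - lam * Con.V n) Con.q hq 5
    (fun n => by
      have := abs_sub E (lam * Con.V n)
      have h2 := hVb n
      linarith)
    (fun k j h2 h3 => by
      have hnd : ∀ s : ℤ, ¬ (Con.q k : ℤ) ∣ Con.q k * s + j := by
        intro s hd
        have h4 : (Con.q k : ℤ) ∣ j := (dvd_add_right (dvd_mul_right _ _)).1 hd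
        have := Int.le_of_dvd (by omega) h4
        omega
      have e1 : Con.V (Con.q k + j) = Con.V j :=
        Con.V_congr k _ _ (by simp) (by simpa using hnd 1)
      have e2 : Con.V (-(Con.q k : ℤ) + j) = Con.V j :=
        Con.V_congr k _ _ (by simp) (by simpa using hnd (-1))
      simp only [e1, e2, and_self])
    (fun k => by simp only [Con.V_neg])
    (by
      have := small_tendsto lam h0.le hlam1
      refine this.congr fun k => ?_
      congr 1
      rw [← abs_neg]
      congr 1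
      ring)
    (fun n => φ n) hrec (hco.mono_left le_sup_right) (hco.mono_left le_sup_left)
  exact hφ (by ext n; exact hzero n)

/-- **The result.** There are a limit-periodic `V : ℤ → ℝ` and `λ₀ > 0` such that the spectral
type of `H_V` contains the label `pp`, whereas for every `0 < λ ≤ λ₀` the spectral type of
`H_{λV}` does not contain `pp`; in particular the two spectral types are different. -/
theorem result :
    ∃ (V : ℤ → ℝ) (hV : LimitPeriodic V) (lam₀ : ℝ), 0 < lam₀ ∧
      SpectralLabel.pp ∈ spectralType (couplingOp V hV 1) ∧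
      ∀ lam : ℝ, 0 < lam → lam ≤ lam₀ →
        SpectralLabel.pp ∉ spectralType (couplingOp V hV lam) ∧
        spectralType (couplingOp V hV 1) ≠ spectralType (couplingOp V hV lam) := by
  refine ⟨Con.V, limitPeriodic_V, 1 / 2 ^ 11, by positivity, pp_mem, fun lam h0 h1 => ?_⟩
  have h2 := pp_not_mem lam h0 h1
  exact ⟨h2, fun h => h2 (h ▸ pp_mem)⟩

end Pool.Agent.Results.MP_c5cda2_mp.CouplingDependentType
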